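import Mathlib
import Pool.Agent.Lib.helper11.Rains

namespace Pool.Agent.Results.MP_4046ef_mp.RainsLocal

open Pool.Agent.Rains

theorem result : ∃ (n : ℕ) (R : Fin n → Rep) (r : Fin n → ℝ), Data R r ∧
    (∃ ε : ℝ, 0 < ε ∧ ∀ x : ℝ, 0 < |x| → |x| < ε → 0 < L R r x) ∧ ∃ x : ℝ, L R r x < 0 :=
  ⟨4, R0, r0, data0, ⟨1 / 3, by norm_num, L0_pos⟩, 1 / 2, L0_half⟩

end Pool.Agent.Results.MP_4046ef_mp.RainsLocal
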